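import Pool.Agent.helper71.AA.Defs
import Pool.Agent.helper22.PD.Mertens2

/-! # Project AA: module N3 (Mertens) -/

namespace Pool.Agent.helper71.AA

open Finset

theorem N3_filter (k n : ℕ) (hkn : k ≤ n) (g : ℕ → ℝ) :
    ∑ l ∈ (Ioc k n).filter Nat.Prime, g l =
      ∑ p ∈ Nat.primesLE n, g p - ∑ p ∈ Nat.primesLE k, g p := by
  rw [eq_sub_iff_add_eq, ← sum_union]
  · congr 1
    ext p
    rw [mem_union, mem_filter, mem_Ioc, Nat.mem_primesLE, Nat.mem_primesLE]
    constructor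
    · rintro (⟨h1, h2⟩ | ⟨h1, h2⟩)
      · exact ⟨h1.2, h2⟩
      · exact ⟨h1.trans hkn, h2⟩
    · rintro ⟨h1, h2⟩
      rcases Nat.lt_or_ge k p with h | h
      · left; exact ⟨⟨h, h1⟩, h2⟩
      · right; exact ⟨h, h2⟩
  · rw [disjoint_left]
    intro p hp hp'
    rw [mem_filter, mem_Ioc] at hp
    have := (Nat.mem_primesLE.mp hp').1
    omega

theorem N3_first : ∃ C : ℝ, 0 < C ∧ ∀ n : ℕ, 1 ≤ n →
    Real.log n - C ≤ ∑ p ∈ Nat.primesLE n, Real.log p / p ∧
    ∑ p ∈ Nat.primesLE n, Real.log p / p ≤ Real.log n + C := by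
  obtain ⟨C, hC, hA⟩ := Pool.Agent.helper22.PD.lower_A
  have h4 : 0 < Real.log 4 := Real.log_pos (by norm_num)
  refine ⟨C + Real.log 4, by linarith, ?_⟩
  intro n hn
  refine ⟨?_, ?_⟩
  · rcases Nat.lt_or_ge n 2 with h | h
    · have h1 : n = 1 := by omega
      subst h1
      have h2 : 0 ≤ ∑ p ∈ Nat.primesLE 1, Real.log p / (p : ℝ) := by
        refine sum_nonneg fun p hp => ?_
        have := (Nat.mem_primesLE.mp hp).2.pos
        exact div_nonneg (Real.log_nonneg (by exact_mod_cast this)) (by positivity)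
      rw [Nat.cast_one, Real.log_one]
      linarith
    · have h1 := hA n h
      have e : ∑ p ∈ Nat.primesLE n, 1 / (p : ℝ) * Real.log p
          = ∑ p ∈ Nat.primesLE n, Real.log p / p := sum_congr rfl fun p _ => by ring
      rw [e] at h1
      linarith
  · have := Pool.Agent.Lib.PrimeSums.sum_log_div_le n hn
    linarith

theorem N3_floor (x : ℝ) (hx : 1 ≤ x) : 1 ≤ ⌊x⌋₊ ∧ Real.log x - Real.log 2 ≤ Real.log ⌊x⌋₊ ∧
    Real.log ⌊x⌋₊ ≤ Real.log x := by
  have h1 : 1 ≤ ⌊x⌋₊ := (Nat.one_le_floor_iff x).2 hx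
  have h1' : (1 : ℝ) ≤ (⌊x⌋₊ : ℝ) := by exact_mod_cast h1
  have h2 : x < (⌊x⌋₊ : ℝ) + 1 := Nat.lt_floor_add_one x
  have h3 : (⌊x⌋₊ : ℝ) ≤ x := Nat.floor_le (by linarith)
  refine ⟨h1, ?_, Real.log_le_log (by linarith) h3⟩
  rw [← Real.log_div (by linarith) (by norm_num)]
  exact Real.log_le_log (by linarith) (by linarith)

theorem mert_log : ∃ C : ℝ, 0 < C ∧ ∀ x y : ℝ, 1 ≤ y → y ≤ x →
    |∑ l ∈ (Ioc ⌊y⌋₊ ⌊x⌋₊).filter Nat.Prime, Real.log l / l - Real.log (x / y)| ≤ C := by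
  obtain ⟨C, hC, h⟩ := N3_first
  have hl2 : 0 < Real.log 2 := Real.log_pos (by norm_num)
  refine ⟨2 * C + Real.log 2, by linarith, ?_⟩
  intro x y hy hyx
  have hx : 1 ≤ x := hy.trans hyx
  obtain ⟨a1, a2, a3⟩ := N3_floor x hx
  obtain ⟨b1, b2, b3⟩ := N3_floor y hy
  obtain ⟨c1, c2⟩ := h _ a1
  obtain ⟨d1, d2⟩ := h _ b1
  rw [N3_filter _ _ (Nat.floor_le_floor hyx) (fun l => Real.log l / l),
    Real.log_div (by linarith) (by linarith), abs_le]
  constructor <;> linarith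

theorem mert_inv : ∃ C : ℝ, 0 < C ∧ ∀ x y : ℝ, 2 ≤ y → y ≤ x →
    ∑ l ∈ (Ioc ⌊y⌋₊ ⌊x⌋₊).filter Nat.Prime, 1 / (l : ℝ) ≤
      Real.log (Real.log x / Real.log y) + C / Real.log y := by
  obtain ⟨C, hC, h⟩ := N3_first
  refine ⟨2 * (2 * C + 1), by linarith, ?_⟩
  intro x y hy hyx
  have hx : 2 ≤ x := hy.trans hyx
  set n := ⌊x⌋₊ with hn
  set k := ⌊y⌋₊ with hk
  have hkn : k ≤ n := Nat.floor_le_floor hyx
  have hk2 : 2 ≤ k := Nat.le_floor (by exact_mod_cast hy)
  have hk2' : (2 : ℝ) ≤ k := by exact_mod_cast hk2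
  have hn2 : 2 ≤ n := hk2.trans hkn
  have hn2' : (2 : ℝ) ≤ n := by exact_mod_cast hn2
  have hky : (k : ℝ) ≤ y := Nat.floor_le (by linarith)
  have hyk : y < (k : ℝ) + 1 := Nat.lt_floor_add_one y
  have hnx : (n : ℝ) ≤ x := Nat.floor_le (by linarith)
  have lk : 0 < Real.log k := Real.log_pos (by linarith)
  have ln : 0 < Real.log n := Real.log_pos (by linarith)
  have ly : 0 < Real.log y := Real.log_pos (by linarith)
  have lx : 0 < Real.log x := Real.log_pos (by linarith)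
  have h1 := Pool.Agent.Lib.PrimeSums.sum_le_loglog (fun p => 1 / (p : ℝ)) C C k n hk2 hkn
    (fun m hm => by
      have := (h m (by omega)).2
      refine le_trans (le_of_eq (sum_congr rfl fun p _ => ?_)) this
      ring)
    (by
      have := (h k (by omega)).1
      refine le_trans this (le_of_eq (sum_congr rfl fun p _ => ?_))
      ring)
  rw [N3_filter _ _ hkn (fun l => 1 / (l : ℝ))]
  refine h1.trans ?_
  rw [Real.log_div lx.ne' ly.ne']
  -- `log y ≤ 2 log k`
  have h2 : Real.log y ≤ 2 * Real.log k := by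
    rw [← Real.log_rpow (by linarith)]
    refine Real.log_le_log (by linarith) ?_
    rw [Real.rpow_two]
    nlinarith
  have h3 : 1 / Real.log k ≤ 2 / Real.log y := by
    rw [div_le_div_iff₀ lk ly]
    linarith
  have h4 : Real.log (Real.log n) ≤ Real.log (Real.log x) :=
    Real.log_le_log ln (Real.log_le_log (by linarith) hnx)
  have h5 : Real.log (Real.log y) - Real.log (Real.log k) ≤ 1 / Real.log k := by
    rw [← Real.log_div ly.ne' lk.ne']
    refine (Real.log_le_sub_one_of_pos (div_pos ly lk)).trans ?_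
    have h6 : Real.log y - Real.log k ≤ 1 := by
      rw [← Real.log_div (by linarith) (by linarith)]
      refine (Real.log_le_sub_one_of_pos (by positivity)).trans ?_
      have : y / k ≤ 2 := by
        rw [div_le_iff₀ (by linarith)]
        linarith
      linarith
    rw [div_sub_one lk.ne', div_le_div_iff_of_pos_right lk]
    exact h6
  have h7 : (C + C) / Real.log k = (2 * C) * (1 / Real.log k) := by ring
  have h8 : 2 * (2 * C + 1) / Real.log y = (2 * C + 1) * (2 / Real.log y) := by ring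
  have h9 : (2 * C + 1) * (1 / Real.log k) ≤ (2 * C + 1) * (2 / Real.log y) :=
    mul_le_mul_of_nonneg_left h3 (by linarith)
  rw [h7, h8]
  linarith

end Pool.Agent.helper71.AA
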