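import Pool.Agent.helper71.AA.Defs
import Pool.Agent.helper25.AA.N3

/-! # Project AA: module K0 (preparations) -/

namespace Pool.Agent.helper71.AA

open Finset

theorem K0_growth : ∃ X₀ : ℝ, 1 ≤ X₀ ∧ ∀ X : ℝ, X₀ ≤ X →
    3 * (1 + Real.log X) ^ 2 ≤ X ^ (0.001 : ℝ) := by
  have h1 : (fun x : ℝ => Real.log x) =o[Filter.atTop] fun x => x ^ (0.0005 : ℝ) :=
    isLittleO_log_rpow_atTop (by norm_num)
  have h2 := h1.bound (show (0 : ℝ) < 1 / 4 by norm_num)
  have h3 : Filter.Tendsto (fun x : ℝ => x ^ (0.0005 : ℝ)) Filter.atTop Filter.atTop :=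
    tendsto_rpow_atTop (by norm_num)
  have h4 := h3.eventually_ge_atTop 4
  obtain ⟨X₁, hX₁⟩ := Filter.eventually_atTop.1 (h2.and h4)
  refine ⟨max X₁ 1, le_max_right _ _, ?_⟩
  intro X hX
  have hX1 : 1 ≤ X := (le_max_right _ _).trans hX
  obtain ⟨a1, a2⟩ := hX₁ X ((le_max_left _ _).trans hX)
  have hl : 0 ≤ Real.log X := Real.log_nonneg hX1
  have hp : 0 ≤ X ^ (0.0005 : ℝ) := Real.rpow_nonneg (by linarith) _
  rw [Real.norm_of_nonneg hl, Real.norm_of_nonneg hp] at a1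
  have h5 : X ^ (0.001 : ℝ) = (X ^ (0.0005 : ℝ)) ^ 2 := by
    rw [← Real.rpow_natCast, ← Real.rpow_mul (by linarith)]
    norm_num
  rw [h5]
  have h6 : 1 + Real.log X ≤ 1 / 2 * X ^ (0.0005 : ℝ) := by linarith
  have h7 : (1 + Real.log X) ^ 2 ≤ (1 / 2 * X ^ (0.0005 : ℝ)) ^ 2 :=
    pow_le_pow_left₀ (by linarith) h6 2
  nlinarith [sq_nonneg (X ^ (0.0005 : ℝ))]

theorem mass_le : ∃ X₀ : ℝ, ∀ X : ℝ, X₀ ≤ X → ∀ (δ R c : ℝ) (v : ℕ → ℝ), Adm X δ R c v →
    ∀ Q : Finset ℕ, (R * (1 + Real.log R)) ^ 2 * (c + ∑ l ∈ Q, v l) ≤ X ^ (0.499 : ℝ) := by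
  obtain ⟨X₀, hX₀, hg⟩ := K0_growth
  refine ⟨X₀, ?_⟩
  intro X hX δ R c v hA Q
  obtain ⟨hR1, hR2, hc0, hc2, hv, hvs⟩ := hA
  have hX1 : 1 ≤ X := hX₀.trans hX
  have hR0 : 0 < R := by linarith
  have hR20 : 0 < R ^ 2 := by positivity
  have hg' := hg X hX
  set Y := X ^ (0.498 : ℝ) with hY
  have hY0 : 0 < Y := Real.rpow_pos_of_pos (by linarith) _
  -- the sum
  have h1 : R ^ 2 * ∑ l ∈ Q, v l ≤ Y := by
    have h2 : ∑ l ∈ Q, v l ≤ ∑ l ∈ Q.filter (fun l => v l ≠ 0), (1 : ℝ) := by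
      rw [← Finset.sum_filter_ne_zero]
      exact Finset.sum_le_sum fun l _ => (hv l).2
    have h3 : ((Q.filter (fun l => v l ≠ 0)).card : ℝ) ≤ Y / R ^ 2 := by
      have h4 : Q.filter (fun l => v l ≠ 0) ⊆ Icc 1 ⌊Y / R ^ 2⌋₊ := by
        intro l hl
        obtain ⟨_, hl⟩ := Finset.mem_filter.1 hl
        obtain ⟨b1, b2⟩ := hvs l hl
        rw [Finset.mem_Icc]
        constructor
        · have : (0 : ℝ) < l := lt_of_le_of_lt (Real.rpow_nonneg (by linarith) _) b1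
          exact_mod_cast this
        · refine Nat.le_floor ?_
          rw [le_div_iff₀ hR20]
          linarith
      have h5 := Finset.card_le_card h4
      rw [Nat.card_Icc, Nat.add_sub_cancel] at h5
      calc ((Q.filter (fun l => v l ≠ 0)).card : ℝ) ≤ (⌊Y / R ^ 2⌋₊ : ℝ) := by exact_mod_cast h5
        _ ≤ _ := Nat.floor_le (by positivity)
    rw [Finset.sum_const, nsmul_eq_mul, mul_one] at h2
    have h6 := mul_le_mul_of_nonneg_left (h2.trans h3) hR20.le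
    rwa [mul_div_cancel₀ _ hR20.ne'] at h6
  -- R^2
  have h2 : R ^ 2 ≤ Y := by
    calc R ^ 2 ≤ (X ^ (0.2 : ℝ)) ^ 2 := pow_le_pow_left₀ hR0.le hR2 2
      _ = X ^ (0.4 : ℝ) := by
          rw [← Real.rpow_natCast, ← Real.rpow_mul (by linarith)]
          norm_num
      _ ≤ Y := Real.rpow_le_rpow_of_exponent_le hX1 (by norm_num)
  have h3 : R ^ 2 * (c + ∑ l ∈ Q, v l) ≤ 3 * Y := by
    have h4 : R ^ 2 * c ≤ R ^ 2 * 2 := mul_le_mul_of_nonneg_left hc2 hR20.le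
    nlinarith
  have hlR0 : 0 ≤ Real.log R := Real.log_nonneg hR1
  have hRX : R ≤ X := hR2.trans (by
    calc X ^ (0.2 : ℝ) ≤ X ^ (1 : ℝ) := Real.rpow_le_rpow_of_exponent_le hX1 (by norm_num)
      _ = X := Real.rpow_one X)
  have hlR : Real.log R ≤ Real.log X := Real.log_le_log hR0 hRX
  have h5 : (1 + Real.log R) ^ 2 ≤ (1 + Real.log X) ^ 2 :=
    pow_le_pow_left₀ (by linarith) (by linarith) 2
  have h6 : X ^ (0.499 : ℝ) = X ^ (0.001 : ℝ) * Y := by
    rw [hY, ← Real.rpow_add (by linarith)]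
    norm_num
  rw [h6, mul_pow]
  calc R ^ 2 * (1 + Real.log R) ^ 2 * (c + ∑ l ∈ Q, v l)
      = (1 + Real.log R) ^ 2 * (R ^ 2 * (c + ∑ l ∈ Q, v l)) := by ring
    _ ≤ (1 + Real.log R) ^ 2 * (3 * Y) := mul_le_mul_of_nonneg_left h3 (by positivity)
    _ ≤ (1 + Real.log X) ^ 2 * (3 * Y) := mul_le_mul_of_nonneg_right h5 (by positivity)
    _ = (3 * (1 + Real.log X) ^ 2) * Y := by ring
    _ ≤ _ := mul_le_mul_of_nonneg_right hg' hY0.le

theorem K0_pr_one (w Z : ℕ) (Q : Finset ℕ) (hQ : Q ⊆ Qs w Z) (K : Finset ℕ) (hK : K ⊆ Q) :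
    1 ≤ pr K := by
  unfold pr
  have : (∏ l ∈ K, (1 : ℝ)) ≤ ∏ l ∈ K, (l : ℝ) := by
    refine Finset.prod_le_prod (fun _ _ => zero_le_one) ?_
    intro l hl
    have h1 := hQ (hK hl)
    unfold Qs at h1
    have h2 := (Finset.mem_filter.1 h1).2.one_lt
    exact_mod_cast h2.le
  simpa using this

theorem K0_Gs_zero (w Z : ℕ) (Q : Finset ℕ) (hQ : Q ⊆ Qs w Z) (R : ℝ) (hR : R < 1) :
    Gs Q R = 0 := by
  unfold Gs
  have : Sub Q R = ∅ := by
    rw [Finset.eq_empty_iff_forall_notMem]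
    intro K hK
    unfold Sub at hK
    obtain ⟨h1, h2⟩ := Finset.mem_filter.1 hK
    have := K0_pr_one w Z Q hQ K (Finset.mem_powerset.1 h1)
    linarith
  rw [this, Finset.sum_empty]

theorem K0_Aw_pos (w : ℕ) : 0 < Aw w := by
  unfold Aw
  have h1 : 0 < primorial w := primorial_pos w
  have h2 : 0 < Nat.totient (primorial w) := Nat.totient_pos.2 h1
  positivity

theorem Gs_le_of (Gs_upper : ∀ (w : ℕ) (_ : 10 ≤ w), ∃ C : ℝ, 0 < C ∧
      ∀ (Z : ℕ) (Q : Finset ℕ), Q ⊆ Qs w Z → ∀ x y : ℝ, 0 < y → y ≤ x →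
      Gs Q x - Gs Q y ≤ (1 + 2 / w) * Aw w * Real.log (x / y) + C)
    (w : ℕ) (hw : 10 ≤ w) : ∃ X₀ : ℝ, ∀ X : ℝ, X₀ ≤ X → ∀ (Z : ℕ) (Q : Finset ℕ),
    Q ⊆ Qs w Z → ∀ R : ℝ, R ≤ X ^ (0.2 : ℝ) → Gs Q R ≤ Aw w * Real.log X := by
  obtain ⟨C, hC, h⟩ := Gs_upper w hw
  have hA := K0_Aw_pos w
  have hw' : (10 : ℝ) ≤ w := by exact_mod_cast hw
  have hl2 : Real.log 2 < 0.6931471808 := Real.log_two_lt_d9
  have hl20 : 0 < Real.log 2 := Real.log_pos (by norm_num)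
  refine ⟨max 1 (Real.exp (2 + 2 * C / Aw w)), ?_⟩
  intro X hX Z Q hQ R hR
  have hX1 : 1 ≤ X := (le_max_left _ _).trans hX
  have hX2 : Real.exp (2 + 2 * C / Aw w) ≤ X := (le_max_right _ _).trans hX
  have hlX : 2 + 2 * C / Aw w ≤ Real.log X := by
    rw [← Real.log_exp (2 + 2 * C / Aw w)]
    exact Real.log_le_log (Real.exp_pos _) hX2
  have hCA : 0 < 2 * C / Aw w := by positivity
  by_cases hR1 : R < 1
  · rw [K0_Gs_zero w Z Q hQ R hR1]
    exact mul_nonneg hA.le (by linarith)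
  · rw [not_lt] at hR1
    have h1 := h Z Q hQ R (1 / 2) (by norm_num) (by linarith)
    rw [K0_Gs_zero w Z Q hQ (1 / 2) (by norm_num), sub_zero] at h1
    have h2 : Real.log (R / (1 / 2)) ≤ 0.2 * Real.log X + Real.log 2 := by
      have h3 : R / (1 / 2) = R * 2 := by ring
      rw [h3, Real.log_mul (by linarith) (by norm_num)]
      have h4 : Real.log R ≤ 0.2 * Real.log X := by
        rw [← Real.log_rpow (by linarith)]
        exact Real.log_le_log (by linarith) hR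
      linarith
    have h3 : (1 + 2 / (w : ℝ)) ≤ 1.2 := by
      have : 2 / (w : ℝ) ≤ 2 / 10 := by
        apply div_le_div_of_nonneg_left (by norm_num) (by norm_num) hw'
      linarith
    have h4 : (1 + 2 / (w : ℝ)) * Aw w * Real.log (R / (1 / 2)) ≤
        1.2 * Aw w * (0.2 * Real.log X + Real.log 2) := by
      have h5 : 0 ≤ 0.2 * Real.log X + Real.log 2 := by linarith
      calc (1 + 2 / (w : ℝ)) * Aw w * Real.log (R / (1 / 2))
          ≤ (1 + 2 / (w : ℝ)) * Aw w * (0.2 * Real.log X + Real.log 2) :=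
            mul_le_mul_of_nonneg_left h2 (by positivity)
        _ ≤ _ := mul_le_mul_of_nonneg_right (mul_le_mul_of_nonneg_right h3 hA.le) h5
    have h5 : C = Aw w * (1 / 2 * (2 * C / Aw w)) := by
      field_simp
    have h6 : 1.2 * Aw w * (0.2 * Real.log X + Real.log 2) + C ≤ Aw w * Real.log X := by
      have e : 1.2 * Aw w * (0.2 * Real.log X + Real.log 2) + Aw w * (1 / 2 * (2 * C / Aw w)) =
        Aw w * (1.2 * (0.2 * Real.log X + Real.log 2) + 1 / 2 * (2 * C / Aw w)) := by ring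
      rw [← h5] at e
      rw [e]
      refine mul_le_mul_of_nonneg_left ?_ hA.le
      linarith
    linarith

theorem sv_le (δ : ℝ) (hδ : 0 < δ) : ∃ B X₀ : ℝ, 0 < B ∧ ∀ X : ℝ, X₀ ≤ X →
    ∀ (R c : ℝ) (v : ℕ → ℝ), Adm X δ R c v → ∀ (w Z : ℕ) (Q : Finset ℕ), Q ⊆ Qs w Z →
      ∑ l ∈ Q, v l / l ≤ B := by
  obtain ⟨C, hC, hM⟩ := mert_inv
  set d := min δ 1 with hd
  have hd0 : 0 < d := lt_min hδ one_pos
  have hd1 : d ≤ 1 := min_le_right _ _
  have hdδ : d ≤ δ := min_le_left _ _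
  have hl2 : 0 < Real.log 2 := Real.log_pos (by norm_num)
  have hld : 0 ≤ Real.log (1 / d) := by
    apply Real.log_nonneg
    rw [le_div_iff₀ hd0]
    linarith
  refine ⟨Real.log (1 / d) + C / Real.log 2 + 1, max 2 ((2 : ℝ) ^ (1 / d)), by positivity, ?_⟩
  intro X hX R c v hA w Z Q hQ
  obtain ⟨hR1, hR2, hc0, hc2, hv, hvs⟩ := hA
  have hX2 : 2 ≤ X := (le_max_left _ _).trans hX
  have hXd : 2 ≤ X ^ d := by
    have h1 : (2 : ℝ) ^ (1 / d) ≤ X := (le_max_right _ _).trans hX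
    calc (2 : ℝ) = ((2 : ℝ) ^ (1 / d)) ^ d := by
          rw [← Real.rpow_mul (by norm_num), one_div, inv_mul_cancel₀ hd0.ne', Real.rpow_one]
      _ ≤ X ^ d := Real.rpow_le_rpow (by positivity) h1 hd0.le
  have hXX : X ^ d ≤ X := by
    calc X ^ d ≤ X ^ (1 : ℝ) := Real.rpow_le_rpow_of_exponent_le (by linarith) hd1
      _ = X := Real.rpow_one X
  have h1 := hM X (X ^ d) hXd hXX
  have hlX : 0 < Real.log X := Real.log_pos (by linarith)
  have h2 : Real.log X / Real.log (X ^ d) = 1 / d := by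
    rw [Real.log_rpow (by linarith)]
    field_simp
  rw [h2] at h1
  have h3 : C / Real.log (X ^ d) ≤ C / Real.log 2 := by
    apply div_le_div_of_nonneg_left hC.le hl2
    exact Real.log_le_log (by norm_num) hXd
  have h4 : ∑ l ∈ Q, v l / l ≤ ∑ l ∈ (Ioc ⌊X ^ d⌋₊ ⌊X⌋₊).filter Nat.Prime, 1 / (l : ℝ) := by
    calc ∑ l ∈ Q, v l / (l : ℝ) ≤ ∑ l ∈ Q.filter (fun l => v l ≠ 0), 1 / (l : ℝ) := by
          rw [Finset.sum_filter]
          refine Finset.sum_le_sum fun l _ => ?_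
          by_cases hl : v l = 0
          · rw [if_neg (by simpa using hl), hl]
            simp
          · rw [if_pos hl]
            exact div_le_div_of_nonneg_right (hv l).2 (by positivity)
      _ ≤ _ := by
          refine Finset.sum_le_sum_of_subset_of_nonneg ?_ (fun l _ _ => by positivity)
          intro l hl
          obtain ⟨hlQ, hl⟩ := Finset.mem_filter.1 hl
          obtain ⟨b1, b2⟩ := hvs l hl
          have hp := hQ hlQ
          unfold Qs at hp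
          rw [Finset.mem_filter, Finset.mem_Ioc]
          refine ⟨⟨?_, ?_⟩, (Finset.mem_filter.1 hp).2⟩
          · rw [Nat.floor_lt (by positivity)]
            refine lt_of_le_of_lt ?_ b1
            exact Real.rpow_le_rpow_of_exponent_le (by linarith) hdδ
          · refine Nat.le_floor ?_
            have h5 : (l : ℝ) ≤ R ^ 2 * l := by
              have : (1 : ℝ) ≤ R ^ 2 := by nlinarith
              have hl0 : (0 : ℝ) ≤ l := by positivity
              nlinarith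
            refine h5.trans (b2.trans ?_)
            calc X ^ (0.498 : ℝ) ≤ X ^ (1 : ℝ) :=
                  Real.rpow_le_rpow_of_exponent_le (by linarith) (by norm_num)
              _ = X := Real.rpow_one X
  linarith

theorem At_card (η X P : ℝ) (hη : 0 < η) (hX : 2 ≤ X) (hP : P ≤ X ^ (0.001 : ℝ)) (W a₀ b : ℕ)
    (a : ℕ) (ha : a ∈ As W a₀ X) (p : ℕ) (hp : p ∈ Ps W b P) (Q S : Finset ℕ)
    (hQ : ∀ l ∈ Q, l.Prime) (hS : S ⊆ At Q p a) (h : ∀ l ∈ S, X ^ η < (l : ℝ)) :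
    (S.card : ℝ) ≤ 1.002 / η := by
  unfold As at ha
  unfold Ps at hp
  obtain ⟨ha1, _⟩ := Finset.mem_filter.1 ha
  obtain ⟨hp1, hpp, _⟩ := Finset.mem_filter.1 hp
  rw [Finset.mem_Icc] at ha1 hp1
  have hX0 : 0 < X := by linarith
  have haX : (a : ℝ) ≤ X := by
    calc (a : ℝ) ≤ (⌊X⌋₊ : ℝ) := by exact_mod_cast ha1.2
      _ ≤ X := Nat.floor_le (by linarith)
  have hP0 : 0 ≤ P := by
    by_contra hcon
    rw [not_le] at hcon
    have : ⌊P⌋₊ = 0 := Nat.floor_of_nonpos hcon.le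
    omega
  have hpP : (p : ℝ) ≤ P := by
    calc (p : ℝ) ≤ (⌊P⌋₊ : ℝ) := by exact_mod_cast hp1.2
      _ ≤ P := Nat.floor_le hP0
  have hp2 := hpp.two_le
  have hap : 4 ≤ a * p ^ 2 := by nlinarith [ha1.1, Nat.mul_le_mul hp2 hp2]
  have hdvd : ∏ l ∈ S, l ∣ a * p ^ 2 - 1 := by
    refine Finset.prod_primes_dvd _ ?_ ?_
    · intro l hl
      have := hS hl
      unfold At at this
      exact (hQ l (Finset.mem_filter.1 this).1).prime
    · intro l hl
      have := hS hl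
      unfold At at this
      exact (Finset.mem_filter.1 this).2
  have hle := Nat.le_of_dvd (by omega) hdvd
  have h1 : (∏ l ∈ S, (l : ℝ)) ≤ X * (X ^ (0.001 : ℝ)) ^ 2 := by
    have h2 : ((∏ l ∈ S, l : ℕ) : ℝ) ≤ ((a * p ^ 2 : ℕ) : ℝ) := by
      exact_mod_cast hle.trans (Nat.sub_le _ _)
    push_cast at h2
    refine h2.trans ?_
    have h3 : (p : ℝ) ^ 2 ≤ (X ^ (0.001 : ℝ)) ^ 2 :=
      pow_le_pow_left₀ (by positivity) (hpP.trans hP) 2
    exact mul_le_mul haX h3 (by positivity) hX0.le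
  have h2 : (X ^ η) ^ S.card ≤ ∏ l ∈ S, (l : ℝ) := by
    rw [← Finset.prod_const]
    exact Finset.prod_le_prod (fun _ _ => by positivity) (fun l hl => (h l hl).le)
  have h3 : X * (X ^ (0.001 : ℝ)) ^ 2 = X ^ (1.002 : ℝ) := by
    rw [← Real.rpow_natCast, ← Real.rpow_mul hX0.le]
    nth_rewrite 1 [← Real.rpow_one X]
    rw [← Real.rpow_add hX0]
    norm_num
  have h4 : (X ^ η) ^ S.card = X ^ (η * S.card) := by
    rw [← Real.rpow_natCast, ← Real.rpow_mul hX0.le]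
  rw [h3] at h1
  rw [h4] at h2
  have h5 := (Real.rpow_le_rpow_left_iff (by linarith : 1 < X)).1 (h2.trans h1)
  rw [le_div_iff₀ hη]
  linarith

end Pool.Agent.helper71.AA
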